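import Pool.Agent.Helper81.IdealChomp.Game

set_option autoImplicit false

namespace Pool.Agent.Helper81.IdealChomp

variable {T F : Type*} [CommRing T] [Field F] (π : T →+* F) (E : Subring F)

/-- The restriction of `π : T → F` to the preimage `π⁻¹(E)` of a subring `E` of `F`. -/
def proj : (E.comap π) →+* E where
  toFun r := ⟨π r.1, r.2⟩
  map_one' := by ext; simp
  map_mul' a b := by ext; simp
  map_zero' := by ext; simp
  map_add' a b := by ext; simp

theorem proj_surjective (hπ : Function.Surjective π) : Function.Surjective (proj π E) := by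
  rintro ⟨e, he⟩
  obtain ⟨t, rfl⟩ := hπ e
  exact ⟨⟨t, he⟩, rfl⟩

theorem mem_of_map_eq_zero {t : T} (ht : π t = 0) : t ∈ E.comap π := by
  rw [Subring.mem_comap, ht]; exact E.zero_mem

theorem mem_of_map_eq_one {t : T} (ht : π t = 1) : t ∈ E.comap π := by
  rw [Subring.mem_comap, ht]; exact E.one_mem

/-- A maximal ideal `Q` of `T` not containing the kernel of `π` restricts to a maximal ideal. -/
theorem comap_isMaximal {Q : Ideal T} (hQ : Q.IsMaximal) {m : T} (hm : π m = 0) (hmQ : m ∉ Q) :
    (Ideal.comap (E.comap π).subtype Q).IsMaximal := by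
  have hsurj : Function.Surjective ((Ideal.Quotient.mk Q).comp (E.comap π).subtype) := by
    intro x
    obtain ⟨t, rfl⟩ := Ideal.Quotient.mk_surjective x
    obtain ⟨s, i, hi, hsi⟩ := hQ.exists_inv hmQ
    refine ⟨⟨t * (s * m), mem_of_map_eq_zero π E (by simp [hm])⟩, ?_⟩
    rw [RingHom.comp_apply]
    refine (Ideal.Quotient.mk_eq_mk_iff_sub_mem _ _).mpr ?_
    have : (E.comap π).subtype ⟨t * (s * m), mem_of_map_eq_zero π E (by simp [hm])⟩ - t
        = -(t * i) := by
      change t * (s * m) - t = -(t * i)
      linear_combination t * hsi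
    rw [this]
    exact Q.neg_mem (Q.mul_mem_left _ hi)
  have hker : Ideal.comap (E.comap π).subtype Q =
      RingHom.ker ((Ideal.Quotient.mk Q).comp (E.comap π).subtype) := by
    rw [← RingHom.comap_ker, Ideal.mk_ker]
  rw [hker]
  let _ : Field (T ⧸ Q) := Ideal.Quotient.field Q
  exact RingHom.ker_isMaximal_of_surjective _ hsurj

/-- The game on the pullback ring: if every nonzero nonunit `a` of `T` has an answer `b`, congruent
to `1` modulo the kernel of `π`, not in `(a)` and such that `(a, b)` is maximal, and if B wins on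
the subring `E` of `F`, then B wins on `π⁻¹(E)`. -/
theorem bWins_comap [Nontrivial T] (hπ : Function.Surjective π)
    (H : ∀ a : T, a ≠ 0 → ¬ IsUnit a →
      ∃ b : T, π b = 1 ∧ (Ideal.span {a, b}).IsMaximal ∧ b ∉ Ideal.span {a})
    (hE : BWins (⊥ : Ideal E)) : BWins (⊥ : Ideal (E.comap π)) := by
  refine BWins.intro bot_ne_top fun a ha hne => ?_
  have ha0 : (a : T) ≠ 0 := fun h => ha (by
    rw [Ideal.mem_bot]; exact Subtype.ext h)
  by_cases hu : IsUnit (a : T)
  · -- `a` is a unit of `T`: the game goes down to `E`
    obtain ⟨u, hu⟩ := hu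
    have hle : RingHom.ker (proj π E) ≤ Ideal.span {a} := by
      intro m hm
      have hm0 : π (m : T) = 0 := by
        have := congrArg Subtype.val ((RingHom.mem_ker).mp hm)
        exact this
      rw [Ideal.mem_span_singleton']
      refine ⟨⟨(m : T) * (↑u⁻¹ : T), mem_of_map_eq_zero π E (by simp [hm0])⟩, ?_⟩
      ext
      change (m : T) * (↑u⁻¹ : T) * (a : T) = m
      rw [← hu, mul_assoc, Units.inv_mul, mul_one]
    have hcomap : (⊥ : Ideal (E.comap π)) ⊔ Ideal.span {a} =
        Ideal.comap (proj π E) ((⊥ : Ideal E) ⊔ Ideal.span {proj π E a}) := by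
      rw [← comap_sup_span _ (proj_surjective π E hπ), bot_sup_eq]
      refine le_antisymm le_sup_right (sup_le ?_ le_rfl)
      exact hle
    have ha' : proj π E a ∉ (⊥ : Ideal E) := by
      rw [Ideal.mem_bot]
      intro h
      have h0 : π (a : T) = 0 := congrArg Subtype.val h
      have h1 : IsUnit (π (a : T)) := by
        rw [← hu]; exact (u.isUnit).map π
      rw [h0] at h1
      exact not_isUnit_zero h1
    have hne' : (⊥ : Ideal E) ⊔ Ideal.span {proj π E a} ≠ ⊤ := by
      intro h
      apply hne
      rw [hcomap, h, Ideal.comap_top]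
    obtain ⟨b, hb, hwin⟩ := hE.next ha' hne'
    obtain ⟨b', rfl⟩ := proj_surjective π E hπ b
    refine ⟨b', ?_, ?_⟩
    · rw [hcomap, Ideal.mem_comap]; exact hb
    · rw [hcomap, comap_sup_span _ (proj_surjective π E hπ)]
      exact hwin.comap _ (proj_surjective π E hπ)
  · -- `a` is not a unit of `T`: B moves to a maximal ideal
    obtain ⟨b, hb1, hmax, hb⟩ := H a ha0 hu
    have haQ : (a : T) ∈ Ideal.span {(a : T), b} := Ideal.subset_span (by simp)
    have hbQ : b ∈ Ideal.span {(a : T), b} := Ideal.subset_span (by simp)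
    let b' : E.comap π := ⟨b, mem_of_map_eq_one π E hb1⟩
    refine ⟨b', ?_, ?_⟩
    · rw [bot_sup_eq, Ideal.mem_span_singleton']
      rintro ⟨r, hr⟩
      apply hb
      rw [Ideal.mem_span_singleton']
      exact ⟨r, congrArg Subtype.val hr⟩
    · have heq : (⊥ : Ideal (E.comap π)) ⊔ Ideal.span {a} ⊔ Ideal.span {b'} =
          Ideal.comap (E.comap π).subtype (Ideal.span {(a : T), b}) := by
        rw [bot_sup_eq]
        apply le_antisymm
        · refine sup_le ?_ ?_
          · rw [Ideal.span_singleton_le_iff_mem, Ideal.mem_comap]; exact haQ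
          · rw [Ideal.span_singleton_le_iff_mem, Ideal.mem_comap]; exact hbQ
        · intro c hc
          rw [Ideal.mem_comap] at hc
          obtain ⟨s, t, hst⟩ := Ideal.mem_span_pair.mp hc
          have hst' : s * (a : T) + t * b = (c : T) := hst
          have h1 : π (s * (1 - b)) = 0 := by simp [hb1]
          have h2 : π (t * (1 - b)) = 0 := by simp [hb1]
          have key : c = (⟨s * (1 - b), mem_of_map_eq_zero π E h1⟩ : E.comap π) * a +
              (c + ⟨t * (1 - b), mem_of_map_eq_zero π E h2⟩) * b' := by
            ext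
            change (c : T) = s * (1 - b) * (a : T) + ((c : T) + t * (1 - b)) * b
            linear_combination (b - 1) * hst'
          rw [key]
          exact Submodule.add_mem_sup (Ideal.mem_span_singleton'.mpr ⟨_, rfl⟩)
            (Ideal.mem_span_singleton'.mpr ⟨_, rfl⟩)
      rw [heq]
      -- `1 - b` is in the kernel and not in the maximal ideal
      refine BWins.of_isMaximal (comap_isMaximal π E hmax (m := 1 - b) (by simp [hb1]) ?_)
      intro hmem
      apply hmax.ne_top
      rw [Ideal.eq_top_iff_one]
      have := Ideal.add_mem _ hmem hbQ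
      simpa using this

section Dimension

variable [Ring.DimensionLEOne T]

/-- A nonzero prime ideal of `π⁻¹(E)` that does not contain the kernel of `π` is maximal. -/
theorem isMaximal_of_prime {p : Ideal (E.comap π)} (hp : p.IsPrime) (hp0 : p ≠ ⊥)
    {m : E.comap π} (hm : π (m : T) = 0) (hmp : m ∉ p) : p.IsMaximal := by
  -- the element `t * m` of the pullback
  have hmem : ∀ t : T, t * (m : T) ∈ E.comap π := fun t =>
    mem_of_map_eq_zero π E (by simp [hm])
  have cancel : ∀ x : E.comap π, x * m ∈ p → x ∈ p := fun x hx =>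
    (hp.mem_or_mem hx).resolve_right hmp
  let p' : Ideal T :=
    { carrier := {t | (⟨t * m, hmem t⟩ : E.comap π) ∈ p}
      zero_mem' := by
        change (⟨0 * m, hmem 0⟩ : E.comap π) ∈ p
        have : (⟨0 * m, hmem 0⟩ : E.comap π) = 0 := by ext; simp
        rw [this]; exact p.zero_mem
      add_mem' := by
        intro s t hs ht
        change (⟨(s + t) * m, hmem (s + t)⟩ : E.comap π) ∈ p
        have : (⟨(s + t) * m, hmem (s + t)⟩ : E.comap π) =
            ⟨s * m, hmem s⟩ + ⟨t * m, hmem t⟩ := by ext; simp [add_mul]
        rw [this]; exact p.add_mem hs ht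
      smul_mem' := by
        intro s t ht
        change (⟨(s * t) * m, hmem (s * t)⟩ : E.comap π) ∈ p
        apply cancel
        have : (⟨(s * t) * m, hmem (s * t)⟩ : E.comap π) * m =
            ⟨s * m, hmem s⟩ * ⟨t * m, hmem t⟩ := by
          ext
          change s * t * m * m = s * m * (t * m)
          ring
        rw [this]; exact p.mul_mem_left _ ht }
  have hmem' : ∀ t : T, t ∈ p' ↔ (⟨t * m, hmem t⟩ : E.comap π) ∈ p := fun t => Iff.rfl
  have hcomap : p = Ideal.comap (E.comap π).subtype p' := by
    ext x
    rw [Ideal.mem_comap, hmem']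
    have : (⟨(E.comap π).subtype x * m, hmem _⟩ : E.comap π) = x * m := rfl
    rw [this]
    exact ⟨fun h => p.mul_mem_right _ h, cancel x⟩
  have hm' : (m : T) ∉ p' := by
    rw [hmem']
    intro h
    have : (⟨(m : T) * m, hmem _⟩ : E.comap π) = m * m := rfl
    rw [this] at h
    exact hmp (cancel m h)
  have hprime : p'.IsPrime := by
    refine ⟨?_, ?_⟩
    · intro h
      exact hm' (h ▸ Submodule.mem_top)
    · intro s t hst
      rw [hmem'] at hst
      have h2 : (⟨s * m, hmem s⟩ : E.comap π) * ⟨t * m, hmem t⟩ ∈ p := by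
        have : (⟨s * m, hmem s⟩ : E.comap π) * ⟨t * m, hmem t⟩ =
            ⟨(s * t) * m, hmem (s * t)⟩ * m := by
          ext
          change s * m * (t * m) = s * t * m * m
          ring
        rw [this]; exact p.mul_mem_right _ hst
      exact hp.mem_or_mem h2
  have hne : p' ≠ ⊥ := by
    intro h
    apply hp0
    rw [hcomap, h]
    rw [eq_bot_iff]
    intro x hx
    rw [Ideal.mem_comap, Ideal.mem_bot] at hx
    rw [Ideal.mem_bot]
    exact Subtype.ext hx
  have hmax : p'.IsMaximal := Ring.DimensionLEOne.maximalOfPrime hne hprime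
  rw [hcomap]
  exact comap_isMaximal π E hmax hm hm'

/-- The Krull dimension of the pullback ring `π⁻¹(E)` is one more than that of `E`. -/
theorem ringKrullDim_comap [IsDomain T] (hπ : Function.Surjective π) (hker : ∃ m : T, m ≠ 0 ∧ π m = 0) :
    ringKrullDim (E.comap π) = ringKrullDim E + 1 := by
  obtain ⟨m, hm0, hm⟩ := hker
  have hsurj := proj_surjective π E hπ
  apply le_antisymm
  · -- upper bound
    have hE : ringKrullDim E =
        Order.krullDim (PrimeSpectrum.zeroLocus (R := E.comap π) (RingHom.ker (proj π E))) := by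
      rw [← ringKrullDim_quotient]
      exact (ringKrullDim_eq_of_ringEquiv (RingHom.quotientKerEquivOfSurjective hsurj)).symm
    refine iSup_le fun l => ?_
    have hE0 : 0 ≤ ringKrullDim E := ringKrullDim_nonneg_of_nontrivial
    rcases Nat.eq_zero_or_pos l.length with h0 | hpos
    · rw [h0]
      exact le_trans (by simp) (add_le_add hE0 (le_refl (1 : WithBot ℕ∞)))
    · by_cases hcont : RingHom.ker (proj π E) ≤ (l ⟨1, by omega⟩).asIdeal
      · -- the tail of the series lies in the zero locus
        let l' : LTSeries (PrimeSpectrum.zeroLocus (R := E.comap π) (RingHom.ker (proj π E))) :=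
          { length := l.length - 1
            toFun := fun i => ⟨l ⟨i.1 + 1, by omega⟩, by
              rw [PrimeSpectrum.mem_zeroLocus]
              refine le_trans (b := ((l ⟨1, by omega⟩).asIdeal : Set (E.comap π))) hcont ?_
              have : l ⟨1, by omega⟩ ≤ l ⟨i.1 + 1, by omega⟩ :=
                l.monotone (by simp [Fin.le_def])
              exact this⟩
            step := fun i => by
              change l ⟨i.1 + 1, _⟩ < l ⟨i.1 + 1 + 1, _⟩
              exact l.strictMono (by simp [Fin.lt_def]) }
        have h1 : ((l.length - 1 : ℕ) : WithBot ℕ∞) ≤ ringKrullDim E := by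
          rw [hE]
          exact Order.LTSeries.length_le_krullDim l'
        have h2 : (l.length : WithBot ℕ∞) = ((l.length - 1 : ℕ) : WithBot ℕ∞) + 1 := by
          have : l.length = (l.length - 1) + 1 := by omega
          conv_lhs => rw [this]
          push_cast
          rfl
        rw [h2]
        exact add_le_add h1 le_rfl
      · -- the second prime is maximal, so the length is one
        obtain ⟨x, hx, hxp⟩ := Set.not_subset.mp hcont
        have hx0 : π (x : T) = 0 := congrArg Subtype.val ((RingHom.mem_ker).mp hx)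
        have hlt : l ⟨0, by omega⟩ < l ⟨1, by omega⟩ := l.strictMono (by simp [Fin.lt_def])
        have hne : (l ⟨1, by omega⟩).asIdeal ≠ ⊥ := by
          intro h
          have : (l ⟨0, by omega⟩).asIdeal < (l ⟨1, by omega⟩).asIdeal := hlt
          rw [h] at this
          exact not_lt_bot this
        have hmax := isMaximal_of_prime π E (l ⟨1, by omega⟩).isPrime hne hx0 hxp
        have hlen : l.length = 1 := by
          by_contra hne1
          have h2 : 2 ≤ l.length := by omega
          have hlt2 : l ⟨1, by omega⟩ < l ⟨2, by omega⟩ := l.strictMono (by simp [Fin.lt_def])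
          have hlt3 : (l ⟨1, by omega⟩).asIdeal < (l ⟨2, by omega⟩).asIdeal := hlt2
          exact (l ⟨2, by omega⟩).isPrime.ne_top (hmax.1.2 _ hlt3)
        rw [hlen]
        exact le_trans (by simp) (add_le_add hE0 (le_refl (1 : WithBot ℕ∞)))
  · -- lower bound
    refine ringKrullDim_succ_le_of_surjective (proj π E) hsurj
      (r := ⟨m, mem_of_map_eq_zero π E hm⟩) ?_ ?_
    · rw [mem_nonZeroDivisors_iff_ne_zero]
      intro h
      exact hm0 (congrArg Subtype.val h)
    · ext
      exact hm

end Dimension

end Pool.Agent.Helper81.IdealChomp
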