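import Pool.Agent.Helper81.IdealChomp.Curve
import Pool.Agent.Helper81.IdealChomp.Pullback

set_option autoImplicit false

namespace Pool.Agent.Helper81.IdealChomp

open Polynomial WeierstrassCurve WeierstrassCurve.Affine

variable (F : Type*) [Field F]

/-- The coordinate ring of the curve. -/
abbrev Coord : Type _ := (curve F).CoordinateRing

instance : Module.Finite F[X] (Coord F) :=
  Module.Finite.of_basis (CoordinateRing.basis (curve F))

instance : IsNoetherianRing (Coord F) :=
  isNoetherian_of_tower F[X] (isNoetherian_of_isNoetherianRing_of_finite F[X] (Coord F))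

instance : Ring.DimensionLEOne (Coord F) := Ring.DimensionLEOne.of_isIntegral F[X] (Coord F)

instance : Algebra.FiniteType F (Coord F) := 
  Algebra.FiniteType.trans (S := F[X]) inferInstance inferInstance

variable {F} [CharZero F]

omit [CharZero F] in
theorem XYIdeal_isMaximal {x y : F} (h : (curve F).Nonsingular x y) :
    (CoordinateRing.XYIdeal (curve F) x (C y)).IsMaximal :=
  Ideal.Quotient.maximal_of_isField _ (MulEquiv.isField (Field.toIsField F)
    (CoordinateRing.quotientXYIdealEquiv (y := C y) h.1).toMulEquiv)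

omit [CharZero F] in
theorem XYIdeal_inv {x y : F} (h : (curve F).Nonsingular x y) :
    Inv (CoordinateRing.XYIdeal (curve F) x (C y)) :=
  ⟨CoordinateRing.XYIdeal (curve F) x (C ((curve F).negY x y)),
    CoordinateRing.XClass (curve F) x, CoordinateRing.XClass_ne_zero x, by
      rw [mul_comm]; exact CoordinateRing.XYIdeal_neg_mul h⟩

omit [CharZero F] in
theorem XYIdeal_pow_not_principal [DecidableEq F] {x y : F} (h : (curve F).Nonsingular x y)
    {a : Coord F} (ha : a ≠ 0) {k : ℕ}
    (hk : Ideal.span {a} = CoordinateRing.XYIdeal (curve F) x (C y) ^ k) :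
    k • (Point.some x y h : (curve F).Point) = 0 := by
  rw [← Point.toClass_eq_zero, map_nsmul, Point.toClass_some]
  change (ClassGroup.mk (curve F).FunctionField (CoordinateRing.XYIdeal' h)) ^ k = 1
  rw [← map_pow]
  refine (ClassGroup.mk_eq_one_of_coe_ideal
    (I' := CoordinateRing.XYIdeal (curve F) x (C y) ^ k) ?_).mpr ⟨a, ha, hk.symm⟩
  rw [Units.val_pow_eq_pow_val, CoordinateRing.XYIdeal'_eq, FractionalIdeal.coeIdeal_pow]

omit [CharZero F] in
theorem XYIdeal_not_principal {x y : F} (h : (curve F).Nonsingular x y) (a : Coord F) :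
    Ideal.span {a} ≠ CoordinateRing.XYIdeal (curve F) x (C y) := by
  classical
  intro hk
  have ha : a ≠ 0 := by
    rintro rfl
    rw [Ideal.span_singleton_zero] at hk
    have : CoordinateRing.XClass (curve F) x ∈ CoordinateRing.XYIdeal (curve F) x (C y) :=
      Ideal.subset_span (Set.mem_insert _ _)
    rw [← hk, Ideal.mem_bot] at this
    exact CoordinateRing.XClass_ne_zero x this
  have := XYIdeal_pow_not_principal h ha (k := 1) (by rw [pow_one]; exact hk)
  rw [one_smul] at this
  exact Point.some_ne_zero h this

variable [IsAlgClosed F]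

/-- Maximal ideals of the coordinate ring are the ideals of points. -/
theorem exists_eq_XYIdeal {Q : Ideal (Coord F)} (hQ : Q.IsMaximal) :
    ∃ (x y : F) (_ : (curve F).Nonsingular x y), Q = CoordinateRing.XYIdeal (curve F) x (C y) := by
  let _ : Field (Coord F ⧸ Q) := Ideal.Quotient.field Q
  have hfin : Module.Finite F (Coord F ⧸ Q) :=
    finite_of_finite_type_of_isJacobsonRing F (Coord F ⧸ Q)
  have hbij : Function.Bijective (algebraMap F (Coord F ⧸ Q)) :=
    IsAlgClosed.algebraMap_bijective_of_isIntegral
  obtain ⟨x, hx⟩ := hbij.2 (Ideal.Quotient.mk Q (CoordinateRing.mk (curve F) (C X)))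
  obtain ⟨y, hy⟩ := hbij.2 (Ideal.Quotient.mk Q (CoordinateRing.mk (curve F) (X : F[X][X])))
  have halg : ∀ c : F, algebraMap F (Coord F ⧸ Q) c =
      Ideal.Quotient.mk Q (CoordinateRing.mk (curve F) (C (C c))) := fun c => rfl
  have hhom : ((Ideal.Quotient.mk Q).comp (CoordinateRing.mk (curve F))) =
      (algebraMap F (Coord F ⧸ Q)).comp (evalEvalRingHom x y) := by
    apply Polynomial.ringHom_ext'
    · apply Polynomial.ringHom_ext
      · intro c
        simp [halg]
      · simpa using hx.symm
    · simpa using hy.symm
  have heq : (curve F).Equation x y := by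
    have h1 := congrArg (fun f => f (curve F).polynomial) hhom
    simp only [RingHom.comp_apply] at h1
    have h2 : CoordinateRing.mk (curve F) (curve F).polynomial = 0 := AdjoinRoot.mk_self
    rw [h2, map_zero] at h1
    have h3 := hbij.1 (h1.symm.trans (map_zero _).symm)
    exact h3
  have hns : (curve F).Nonsingular x y := (equation_iff_nonsingular_of_Δ_ne_zero curve_Δ).mp heq
  refine ⟨x, y, hns, ?_⟩
  have hle : CoordinateRing.XYIdeal (curve F) x (C y) ≤ Q := by
    rw [CoordinateRing.XYIdeal, Ideal.span_le]
    rintro z (rfl | rfl)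
    · rw [SetLike.mem_coe, ← Ideal.Quotient.eq_zero_iff_mem, CoordinateRing.XClass]
      rw [C_sub, map_sub, map_sub, ← hx, halg, sub_self]
    · rw [SetLike.mem_coe, ← Ideal.Quotient.eq_zero_iff_mem, CoordinateRing.YClass]
      rw [map_sub, map_sub, ← hy, halg, sub_self]
  exact (XYIdeal_isMaximal hns).eq_of_le hQ.ne_top hle |>.symm

/-- The ideal of the base point. -/
noncomputable abbrev baseIdeal (F : Type*) [Field F] : Ideal (Coord F) :=
  CoordinateRing.XYIdeal (curve F) (1 / 4) (C (7 / 8))

/-- Evaluation at the base point. -/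
noncomputable def evalBase (F : Type*) [Field F] [CharZero F] : Coord F →+* F :=
  ((CoordinateRing.quotientXYIdealEquiv (y := C (7 / 8))
    (base_nonsingular (F := F)).1).toRingHom).comp (Ideal.Quotient.mk (baseIdeal F))

omit [IsAlgClosed F] in
theorem evalBase_surjective : Function.Surjective (evalBase F) := by
  unfold evalBase
  rw [RingHom.coe_comp]
  exact (CoordinateRing.quotientXYIdealEquiv (y := C (7 / 8))
    (base_nonsingular (F := F)).1).surjective.comp Ideal.Quotient.mk_surjective

omit [IsAlgClosed F] in
theorem evalBase_eq_zero {t : Coord F} : evalBase F t = 0 ↔ t ∈ baseIdeal F := by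
  rw [← Ideal.Quotient.eq_zero_iff_mem]
  unfold evalBase
  rw [RingHom.comp_apply]
  exact map_eq_zero_iff _ (CoordinateRing.quotientXYIdealEquiv (y := C (7 / 8))
    (base_nonsingular (F := F)).1).injective

theorem coord_answer (a : Coord F) (ha : a ≠ 0) (hu : ¬ IsUnit a) :
    ∃ b : Coord F, evalBase F b = 1 ∧ (Ideal.span {a, b}).IsMaximal ∧ b ∉ Ideal.span {a} := by
  classical
  obtain ⟨b, hb1, hb2, hb3⟩ := exists_answer (M := baseIdeal F)
    (XYIdeal_isMaximal base_nonsingular)
    (fun Q hQ => by
      obtain ⟨x, y, h, rfl⟩ := exists_eq_XYIdeal hQ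
      exact XYIdeal_inv h)
    (fun Q hQ c => by
      obtain ⟨x, y, h, rfl⟩ := exists_eq_XYIdeal hQ
      exact XYIdeal_not_principal h c)
    (fun k c hc hk => by
      by_contra hk0
      exact nsmul_base_ne_zero hk0 (XYIdeal_pow_not_principal base_nonsingular hc hk))
    a ha hu
  refine ⟨b, ?_, hb2, hb3⟩
  have := evalBase_eq_zero.mpr hb1
  rw [map_sub, map_one] at this
  exact sub_eq_zero.mp this

/-- B wins on the pullback of a subring `E` of `F` if B wins on `E`. -/
theorem step (E : Subring F) (hE : BWins (⊥ : Ideal E)) :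
    BWins (⊥ : Ideal (E.comap (evalBase F))) ∧
      ringKrullDim (E.comap (evalBase F)) = ringKrullDim E + 1 := by
  refine ⟨bWins_comap (evalBase F) E evalBase_surjective coord_answer hE,
    ringKrullDim_comap (evalBase F) E evalBase_surjective
      ⟨CoordinateRing.XClass (curve F) (1 / 4), CoordinateRing.XClass_ne_zero _, ?_⟩⟩
  rw [evalBase_eq_zero]
  exact Ideal.subset_span (Set.mem_insert _ _)

/-- The induction. -/
theorem exists_ring (n : ℕ) : ∃ (R : Type) (_ : CommRing R) (_ : IsDomain R) (_ : CharZero R),
    ringKrullDim R = n ∧ BWins (⊥ : Ideal R) := by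
  induction n with
  | zero =>
    refine ⟨ℚ, inferInstance, inferInstance, inferInstance, ?_, ?_⟩
    · rw [ringKrullDim_eq_zero_of_field]; rfl
    · exact BWins.of_isMaximal Ideal.bot_isMaximal
  | succ n ih =>
    obtain ⟨E, _, _, _, hdim, hwin⟩ := ih
    let F := AlgebraicClosure (FractionRing E)
    have : CharZero (FractionRing E) := inferInstance
    have : CharZero F := inferInstance
    have hinj : Function.Injective (algebraMap E F) := by
      rw [IsScalarTower.algebraMap_eq E (FractionRing E) F, RingHom.coe_comp]
      exact (algebraMap (FractionRing E) F).injective.comp (IsFractionRing.injective E _)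
    let E' : Subring F := (algebraMap E F).range
    let e : E ≃+* E' := RingEquiv.ofBijective (algebraMap E F).rangeRestrict
      ⟨fun x y hxy => hinj (congrArg Subtype.val hxy), (algebraMap E F).rangeRestrict_surjective⟩
    have hwin' : BWins (⊥ : Ideal E') := by
      have h1 := hwin.comap e.symm.toRingHom e.symm.surjective
      have h2 : Ideal.comap e.symm.toRingHom (⊥ : Ideal E) = ⊥ := by
        rw [← RingHom.ker_eq_comap_bot]
        exact (RingHom.injective_iff_ker_eq_bot _).mp e.symm.injective
      rwa [h2] at h1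
    have hdim' : ringKrullDim E' = n := by
      rw [← hdim]; exact (ringKrullDim_eq_of_ringEquiv e).symm
    obtain ⟨h1, h2⟩ := step E' hwin'
    have hcz : CharZero (Coord F) :=
      charZero_of_injective_algebraMap (algebraMap F (Coord F)).injective
    refine ⟨E'.comap (evalBase F), inferInstance, inferInstance, inferInstance, ?_, h1⟩
    rw [h2, hdim']
    push_cast
    rfl

end Pool.Agent.Helper81.IdealChomp
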