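import Pool.Agent.Helper81.IdealChomp.TwoGen

set_option autoImplicit false

namespace Pool.Agent.Helper81.IdealChomp

open Polynomial WeierstrassCurve WeierstrassCurve.Affine

/-- The elliptic curve `y² = x³ + 3x`. -/
noncomputable def curve (F : Type*) [Field F] : WeierstrassCurve.Affine F :=
  { a₁ := 0, a₂ := 0, a₃ := 0, a₄ := 3, a₆ := 0 }

section NonTorsion

variable {F : Type*} [Field F] [CharZero F]

theorem curve_Δ : (curve F).Δ ≠ 0 := by
  have : (curve F).Δ = -1728 := by
    simp only [curve, WeierstrassCurve.Δ, WeierstrassCurve.b₂, WeierstrassCurve.b₄,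
      WeierstrassCurve.b₆, WeierstrassCurve.b₈]
    norm_num
  rw [this]
  norm_num

theorem curve_nonsingular {x y : F} : (curve F).Nonsingular x y ↔ y ^ 2 = x ^ 3 + 3 * x := by
  rw [← equation_iff_nonsingular_of_Δ_ne_zero curve_Δ, equation_iff]
  simp [curve]

/-- The base point `(1/4, 7/8)`. -/
theorem base_nonsingular : (curve F).Nonsingular (1 / 4 : F) (7 / 8 : F) := by
  rw [curve_nonsingular]; norm_num

theorem val_cubic {q : ℚ} (hq : padicValRat 2 q < 0) :
    q ^ 3 + 3 * q ≠ 0 ∧ padicValRat 2 (q ^ 3 + 3 * q) = 3 * padicValRat 2 q := by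
  have : Fact (Nat.Prime 2) := ⟨Nat.prime_two⟩
  have hq0 : q ≠ 0 := by rintro rfl; simp at hq
  have h3 : padicValRat 2 (3 : ℚ) = 0 := by
    have : ((3 : ℕ) : ℚ) = 3 := by norm_num
    rw [← this, padicValRat.of_nat]
    simp [padicValNat.eq_zero_of_not_dvd]
  have h1 : padicValRat 2 (q ^ 3) = 3 * padicValRat 2 q := by
    rw [padicValRat.pow]; norm_num
  have h2 : padicValRat 2 (3 * q) = padicValRat 2 q := by
    rw [padicValRat.mul (by norm_num) hq0, h3, zero_add]
  have hne : q ^ 3 + 3 * q ≠ 0 := by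
    intro h
    have h4 : q ^ 3 = -(3 * q) := by linear_combination h
    have h5 : padicValRat 2 (q ^ 3) = padicValRat 2 (3 * q) := by rw [h4, padicValRat.neg]
    rw [h1, h2] at h5
    omega
  refine ⟨hne, ?_⟩
  rw [padicValRat.add_eq_of_lt hne (pow_ne_zero 3 hq0) (mul_ne_zero (by norm_num) hq0)
    (by rw [h1, h2]; omega), h1]

theorem val_quad {q : ℚ} (hq : padicValRat 2 q < 0) :
    q ^ 2 - 3 ≠ 0 ∧ padicValRat 2 (q ^ 2 - 3) = 2 * padicValRat 2 q := by
  have : Fact (Nat.Prime 2) := ⟨Nat.prime_two⟩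
  have hq0 : q ≠ 0 := by rintro rfl; simp at hq
  have h3 : padicValRat 2 (-3 : ℚ) = 0 := by
    rw [padicValRat.neg]
    have : ((3 : ℕ) : ℚ) = 3 := by norm_num
    rw [← this, padicValRat.of_nat]
    simp [padicValNat.eq_zero_of_not_dvd]
  have h1 : padicValRat 2 (q ^ 2) = 2 * padicValRat 2 q := by
    rw [padicValRat.pow]; norm_num
  have hne : q ^ 2 + (-3) ≠ 0 := by
    intro h
    have h4 : q ^ 2 = -(-3) := by linear_combination h
    have h5 : padicValRat 2 (q ^ 2) = padicValRat 2 (-3) := by rw [h4, padicValRat.neg]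
    rw [h1, h3] at h5
    omega
  rw [sub_eq_add_neg]
  refine ⟨hne, ?_⟩
  rw [padicValRat.add_eq_of_lt hne (pow_ne_zero 2 hq0) (by norm_num)
    (by rw [h1, h3]; omega), h1]

variable [DecidableEq F]

/-- Doubling a point whose `x`-coordinate is a rational number of negative 2-adic valuation. -/
theorem double_point {q : ℚ} (hq : padicValRat 2 q < 0) {y : F}
    (h : (curve F).Nonsingular (q : F) y) :
    ∃ (q' : ℚ) (y' : F) (h' : (curve F).Nonsingular (q' : F) y'),
      padicValRat 2 q' = padicValRat 2 q - 2 ∧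
      Point.some (q : F) y h + Point.some (q : F) y h = Point.some (q' : F) y' h' := by
  have : Fact (Nat.Prime 2) := ⟨Nat.prime_two⟩
  obtain ⟨hc, hcv⟩ := val_cubic hq
  obtain ⟨hd, hdv⟩ := val_quad hq
  have hy2 := curve_nonsingular.mp h
  have hcF : ((q : F) ^ 3 + 3 * (q : F)) ≠ 0 := by
    have : (((q ^ 3 + 3 * q : ℚ)) : F) ≠ 0 := by exact_mod_cast hc
    push_cast at this
    exact this
  have hy0 : y ≠ 0 := by
    rintro rfl
    apply hcF
    rw [← hy2]; ring
  have hneg : y ≠ (curve F).negY (q : F) y := by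
    simp only [negY, curve]
    intro h0
    apply hy0
    have : (2 : F) * y = 0 := by linear_combination h0
    exact (mul_eq_zero.mp this).resolve_left two_ne_zero
  have hadd := Point.add_self_of_Y_ne (W := curve F) (h₁ := h) hneg
  have hx : (curve F).addX (q : F) (q : F) ((curve F).slope (q : F) (q : F) y y) =
      (((q ^ 2 - 3) ^ 2 / (4 * (q ^ 3 + 3 * q)) : ℚ) : F) := by
    have hs : (curve F).slope (q : F) (q : F) y y = (3 * (q : F) ^ 2 + 3) / (2 * y) := by
      rw [slope_of_Y_ne rfl hneg]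
      simp only [negY, curve]
      congr 1 <;> ring
    have h1 : (curve F).addX (q : F) (q : F) ((3 * (q : F) ^ 2 + 3) / (2 * y)) =
        (3 * (q : F) ^ 2 + 3) ^ 2 / (4 * y ^ 2) - 2 * (q : F) := by
      simp only [addX, curve]
      rw [div_pow, mul_pow]
      ring
    rw [hs, h1, hy2]
    push_cast
    have h4c : (4 : F) * ((q : F) ^ 3 + 3 * (q : F)) ≠ 0 := mul_ne_zero (by norm_num) hcF
    rw [eq_div_iff h4c, sub_mul, div_mul_cancel₀ _ h4c]
    ring
  refine ⟨(q ^ 2 - 3) ^ 2 / (4 * (q ^ 3 + 3 * q)),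
    (curve F).addY (q : F) (q : F) y ((curve F).slope (q : F) (q : F) y y), ?_, ?_, ?_⟩
  · rw [← hx]
    exact nonsingular_add h h fun hxy => hneg hxy.right
  · have h4 : padicValRat 2 (4 : ℚ) = 2 := by
      have : (4 : ℚ) = ((2 : ℕ) : ℚ) ^ 2 := by norm_num
      rw [this, padicValRat.pow, padicValRat.self (by norm_num)]
      norm_num
    rw [padicValRat.div (pow_ne_zero 2 hd) (mul_ne_zero (by norm_num) hc), padicValRat.pow,
      padicValRat.mul (by norm_num) hc, h4, hcv, hdv]
    push_cast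
    ring
  · rw [hadd, Point.some.injEq]
    exact ⟨hx, rfl⟩

/-- The multiples `2^j • P` of the base point `P` have rational `x`-coordinates of 2-adic
valuation `-(2 + 2 j)`. -/
theorem two_pow_smul (j : ℕ) :
    ∃ (q : ℚ) (y : F) (h : (curve F).Nonsingular (q : F) y),
      padicValRat 2 q = -(2 + 2 * (j : ℤ)) ∧
      (2 ^ j) • (Point.some (1 / 4 : F) (7 / 8 : F) base_nonsingular : (curve F).Point) =
        Point.some (q : F) y h := by
  have : Fact (Nat.Prime 2) := ⟨Nat.prime_two⟩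
  induction j with
  | zero =>
    have h0 : (((1 / 4 : ℚ)) : F) = 1 / 4 := by push_cast; rfl
    refine ⟨1 / 4, 7 / 8, by rw [h0]; exact base_nonsingular, ?_, ?_⟩
    · have : (1 / 4 : ℚ) = (((2 : ℕ) : ℚ) ^ 2)⁻¹ := by norm_num
      rw [this, padicValRat.self_pow_inv]
      norm_num
    · rw [pow_zero, one_smul, Point.some.injEq]
      exact ⟨h0.symm, rfl⟩
  | succ j ih =>
    obtain ⟨q, y, h, hv, hP⟩ := ih
    obtain ⟨q', y', h', hv', hP'⟩ := double_point (by rw [hv]; omega) h
    refine ⟨q', y', h', ?_, ?_⟩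
    · rw [hv', hv]; push_cast; ring
    · rw [pow_succ, mul_comm, mul_smul, hP, two_smul, hP']

/-- The base point has infinite order. -/
theorem nsmul_base_ne_zero {k : ℕ} (hk : k ≠ 0) :
    k • (Point.some (1 / 4 : F) (7 / 8 : F) base_nonsingular : (curve F).Point) ≠ 0 := by
  intro h0
  set P := (Point.some (1 / 4 : F) (7 / 8 : F) base_nonsingular : (curve F).Point) with hP
  have hfin : IsOfFinAddOrder P :=
    isOfFinAddOrder_iff_nsmul_eq_zero.mpr ⟨k, Nat.pos_of_ne_zero hk, h0⟩
  have hfin' : (AddSubmonoid.multiples P : Set (curve F).Point).Finite :=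
    finite_multiples.mpr hfin
  refine (Set.infinite_of_injective_forall_mem (f := fun j : ℕ => (2 ^ j) • P) ?_ ?_) hfin'
  · intro i j hij
    obtain ⟨q₁, y₁, h₁, hv₁, hP₁⟩ := two_pow_smul (F := F) i
    obtain ⟨q₂, y₂, h₂, hv₂, hP₂⟩ := two_pow_smul (F := F) j
    have : (2 ^ i) • P = (2 ^ j) • P := hij
    rw [hP₁, hP₂, Point.some.injEq] at this
    have hq : q₁ = q₂ := by exact_mod_cast this.1
    rw [hq, hv₂] at hv₁
    omega
  · intro j
    exact ⟨2 ^ j, rfl⟩

end NonTorsion

end Pool.Agent.Helper81.IdealChomp
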