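import Mathlib

/-!
# The Ideal Chomp Game

The game on a commutative ring `R` starts with the ideal `I_0 = (0)`.  Players A and B move
alternately, A first.  A move chooses an element `a` of `R` which is not in the current ideal `I`,
and the new ideal is `I + (a)`.  The player whose move produces the whole ring `R` loses.
-/

set_option autoImplicit false

namespace Pool.Agent.Helper81.IdealChomp

/-- The list `[a 0, …, a (n - 1)]` of the first `n` moves. -/
def history {R : Type*} (a : ℕ → R) (n : ℕ) : List R := (List.range n).map a

/-- The moves are numbered `0, 1, 2, …`; player A makes the moves with even number and player B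
the moves with odd number.  Among the first `n` moves of `a`, those of player B follow the
strategy `σ`, a function giving B's move from the list of all earlier moves. -/
def Follows {R : Type*} (σ : List R → R) (a : ℕ → R) (n : ℕ) : Prop :=
  ∀ k < n, Odd k → a k = σ (history a k)

variable {R : Type*} [CommRing R]

/-- The ideal `I_n = (a 0, …, a (n - 1))` reached after the first `n` moves of `a`. -/
def currentIdeal (a : ℕ → R) (n : ℕ) : Ideal R := Ideal.span {x | ∃ k < n, x = a k}

/-- The first `n` moves of `a` are legal: for each `k < n` the move `a k` is not in the ideal
`I_k` generated by the earlier moves. -/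
def LegalUpTo (a : ℕ → R) (n : ℕ) : Prop := ∀ k < n, a k ∉ currentIdeal a k

/-- `σ` is a winning strategy of the second player B in the Ideal Chomp Game on `R`:
* whenever B has to move (an odd number `n` of legal moves, following `σ`, has been made, and the
  current ideal is not the whole ring), the answer of `σ` is a legal move;
* every play following `σ` that has reached the whole ring was ended by a move of A
  (the total number of moves is odd);
* no infinite play follows `σ`. -/
def IsWinningStrategyB (σ : List R → R) : Prop :=
  (∀ (a : ℕ → R) (n : ℕ), Odd n → LegalUpTo a n → Follows σ a n → currentIdeal a n ≠ ⊤ →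
    σ (history a n) ∉ currentIdeal a n) ∧
  (∀ (a : ℕ → R) (n : ℕ), LegalUpTo a n → Follows σ a n → currentIdeal a n = ⊤ → Odd n) ∧
  (∀ a : ℕ → R, ¬ ∀ n : ℕ, LegalUpTo a n ∧ Follows σ a n)

end Pool.Agent.Helper81.IdealChomp
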