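import Pool.Agent.Helper81.IdealChomp.Defs

set_option autoImplicit false

namespace Pool.Agent.Helper81.IdealChomp

variable {R : Type*} [CommRing R]

/-- `position I₀ a n` is the ideal `I_n` reached from the starting ideal `I₀` after the moves
`a 0, …, a (n - 1)`: `I_{n+1} = I_n + (a n)`. -/
def position (I₀ : Ideal R) (a : ℕ → R) : ℕ → Ideal R
  | 0 => I₀
  | n + 1 => position I₀ a n ⊔ Ideal.span {a n}

/-- The first `n` moves of `a` are legal: move number `k` is not in the current ideal. -/
def LegalFrom (I₀ : Ideal R) (a : ℕ → R) (n : ℕ) : Prop :=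
  ∀ k < n, a k ∉ position I₀ a k

/-- `σ` is a winning strategy of the second player B in the Ideal Chomp Game that starts at the
ideal `I₀`:
* whenever B has to move (an odd number `n` of legal moves, following `σ`, has been made, and the
  current ideal is not the whole ring), the answer of `σ` is a legal move;
* every play following `σ` that has reached the whole ring was ended by a move of A
  (the total number of moves is odd);
* no infinite play follows `σ`. -/
def IsWinningFrom (I₀ : Ideal R) (σ : List R → R) : Prop :=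
  (∀ (a : ℕ → R) (n : ℕ), Odd n → LegalFrom I₀ a n → Follows σ a n → position I₀ a n ≠ ⊤ →
    σ (history a n) ∉ position I₀ a n) ∧
  (∀ (a : ℕ → R) (n : ℕ), LegalFrom I₀ a n → Follows σ a n → position I₀ a n = ⊤ → Odd n) ∧
  (∀ a : ℕ → R, ¬ ∀ n : ℕ, LegalFrom I₀ a n ∧ Follows σ a n)

/-- Player B has a winning strategy from the ideal `I₀`. -/
def BWins (I₀ : Ideal R) : Prop := ∃ σ : List R → R, IsWinningFrom I₀ σ

theorem position_zero (I₀ : Ideal R) (a : ℕ → R) : position I₀ a 0 = I₀ := rfl

theorem position_succ (I₀ : Ideal R) (a : ℕ → R) (n : ℕ) :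
    position I₀ a (n + 1) = position I₀ a n ⊔ Ideal.span {a n} := rfl

omit [CommRing R] in
theorem history_one (a : ℕ → R) : history a 1 = [a 0] := rfl

theorem position_add_two (I₀ : Ideal R) (a : ℕ → R) (n : ℕ) :
    position I₀ a (n + 2) =
      position (I₀ ⊔ Ideal.span {a 0} ⊔ Ideal.span {a 1}) (fun k => a (k + 2)) n := by
  induction n with
  | zero => rfl
  | succ n ih =>
    rw [position_succ I₀ a (n + 2), ih]
    rfl

omit [CommRing R] in
theorem history_add_two (a : ℕ → R) (n : ℕ) :
    history a (n + 2) = a 0 :: a 1 :: history (fun k => a (k + 2)) n := by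
  simp only [history]
  rw [List.range_succ_eq_map, List.range_succ_eq_map]
  simp [List.map_map, Function.comp_def]

/-- If `I₀` is proper and for each legal move `a` not producing the whole ring there is an answer
`b` leading to an ideal from which B wins, then B wins from `I₀`. -/
theorem BWins.intro {I₀ : Ideal R} (hI : I₀ ≠ ⊤)
    (h : ∀ a, a ∉ I₀ → I₀ ⊔ Ideal.span {a} ≠ ⊤ →
      ∃ b, b ∉ I₀ ⊔ Ideal.span {a} ∧ BWins (I₀ ⊔ Ideal.span {a} ⊔ Ideal.span {b})) :
    BWins I₀ := by
  classical
  choose! f hf hwin using h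
  choose! τ hτ using hwin
  -- the combined strategy
  let σ : List R → R := fun l =>
    match l with
    | [] => 0
    | [a] => f a
    | a :: _ :: l' => τ a l'
  have hσ1 : ∀ a : ℕ → R, σ (history a 1) = f (a 0) := fun a => rfl
  have hσ2 : ∀ (a : ℕ → R) (n : ℕ), σ (history a (n + 2)) =
      τ (a 0) (history (fun k => a (k + 2)) n) := by
    intro a n
    rw [history_add_two]
  -- first moves
  have first : ∀ (a : ℕ → R) (n : ℕ), 2 ≤ n → LegalFrom I₀ a n → Follows σ a n →
      a 0 ∉ I₀ ∧ I₀ ⊔ Ideal.span {a 0} ≠ ⊤ ∧ a 1 = f (a 0) := by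
    intro a n hn hl hfo
    refine ⟨hl 0 (by omega), ?_, ?_⟩
    · intro htop
      have := hl 1 (by omega)
      rw [position_succ, position_zero, htop] at this
      exact this trivial
    · rw [hfo 1 (by omega) (by decide), hσ1]
  have legal' : ∀ (a : ℕ → R) (n : ℕ), LegalFrom I₀ a (n + 2) →
      LegalFrom (I₀ ⊔ Ideal.span {a 0} ⊔ Ideal.span {a 1}) (fun k => a (k + 2)) n := by
    intro a n hl k hk
    rw [← position_add_two]
    exact hl (k + 2) (by omega)
  have follows' : ∀ (a : ℕ → R) (n : ℕ), Follows σ a (n + 2) →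
      Follows (τ (a 0)) (fun k => a (k + 2)) n := by
    intro a n hfo k hk hodd
    have := hfo (k + 2) (by omega) (by rw [Nat.odd_add]; simp [hodd])
    rw [hσ2] at this
    exact this
  refine ⟨σ, ?_, ?_, ?_⟩
  · intro a n hodd hl hfo hne
    match n, hodd with
    | 1, _ =>
      rw [hσ1]
      exact hf (a 0) (hl 0 (by omega)) hne
    | n + 2, hodd =>
      obtain ⟨h0, h1, h2⟩ := first a (n + 2) (by omega) hl hfo
      have hw := hτ (a 0) h0 h1
      rw [← h2] at hw
      rw [position_add_two] at hne ⊢
      rw [hσ2]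
      exact hw.1 _ n (by rw [Nat.odd_add] at hodd; simpa using hodd) (legal' a n hl)
        (follows' a n hfo) hne
  · intro a n hl hfo htop
    match n with
    | 0 => exact absurd htop hI
    | 1 => decide
    | n + 2 =>
      obtain ⟨h0, h1, h2⟩ := first a (n + 2) (by omega) hl hfo
      have hw := hτ (a 0) h0 h1
      rw [← h2] at hw
      rw [position_add_two] at htop
      have := hw.2.1 _ n (legal' a n hl) (follows' a n hfo) htop
      rw [Nat.odd_add]
      simpa using this
  · intro a hall
    obtain ⟨h0, h1, h2⟩ := first a 2 le_rfl (hall 2).1 (hall 2).2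
    have hw := hτ (a 0) h0 h1
    rw [← h2] at hw
    exact hw.2.2 (fun k => a (k + 2)) fun n =>
      ⟨legal' a n (hall (n + 2)).1, follows' a n (hall (n + 2)).2⟩

/-- B's winning from `I₀` forces `I₀` to be proper. -/
theorem BWins.ne_top {I₀ : Ideal R} (h : BWins I₀) : I₀ ≠ ⊤ := by
  obtain ⟨σ, -, h2, -⟩ := h
  intro htop
  have := h2 (fun _ => 0) 0 (fun k hk => absurd hk (Nat.not_lt_zero k))
    (fun k hk => absurd hk (Nat.not_lt_zero k)) htop
  exact absurd this (by decide)

/-- If B wins from `I₀` then B has a good answer to every non-losing move of A. -/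
theorem BWins.next {I₀ : Ideal R} (h : BWins I₀) {a : R} (ha : a ∉ I₀)
    (hne : I₀ ⊔ Ideal.span {a} ≠ ⊤) :
    ∃ b, b ∉ I₀ ⊔ Ideal.span {a} ∧ BWins (I₀ ⊔ Ideal.span {a} ⊔ Ideal.span {b}) := by
  obtain ⟨σ, h1, h2, h3⟩ := h
  have hist1 : ∀ c : ℕ → R, history c 1 = [c 0] := fun c => rfl
  have hlegal1 : ∀ c : ℕ → R, c 0 = a → LegalFrom I₀ c 1 := by
    intro c hc k hk
    interval_cases k
    rw [hc]; exact ha
  have hfol1 : ∀ c : ℕ → R, Follows σ c 1 := by
    intro c k hk hodd
    interval_cases k
    exact absurd hodd (by decide)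
  have hb : σ [a] ∉ I₀ ⊔ Ideal.span {a} :=
    h1 (fun _ => a) 1 (by decide) (hlegal1 _ rfl) (hfol1 _) hne
  refine ⟨σ [a], hb, fun l => σ (a :: σ [a] :: l), ?_⟩
  -- extend a play by two moves
  let ext : (ℕ → R) → ℕ → R := fun c k =>
    match k with
    | 0 => a
    | 1 => σ [a]
    | k + 2 => c k
  have ext2 : ∀ c : ℕ → R, (fun k => ext c (k + 2)) = c := fun c => rfl
  have hpos : ∀ (c : ℕ → R) (n : ℕ), position I₀ (ext c) (n + 2) =
      position (I₀ ⊔ Ideal.span {a} ⊔ Ideal.span {σ [a]}) c n := by
    intro c n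
    rw [position_add_two, ext2]
  have hhist : ∀ (c : ℕ → R) (n : ℕ), history (ext c) (n + 2) = a :: σ [a] :: history c n := by
    intro c n
    rw [history_add_two, ext2]
  have hlegal : ∀ (c : ℕ → R) (n : ℕ),
      LegalFrom (I₀ ⊔ Ideal.span {a} ⊔ Ideal.span {σ [a]}) c n → LegalFrom I₀ (ext c) (n + 2) := by
    intro c n hl k hk
    match k with
    | 0 => exact ha
    | 1 => exact hb
    | k + 2 =>
      rw [hpos]
      exact hl k (by omega)
  have hfol : ∀ (c : ℕ → R) (n : ℕ), Follows (fun l => σ (a :: σ [a] :: l)) c n →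
      Follows σ (ext c) (n + 2) := by
    intro c n hfo k hk hodd
    match k with
    | 0 => exact absurd hodd (by decide)
    | 1 => rfl
    | k + 2 =>
      rw [hhist]
      exact hfo k (by omega) (by rw [Nat.odd_add] at hodd; simpa using hodd)
  refine ⟨?_, ?_, ?_⟩
  · intro c n hodd hl hfo hne'
    have := h1 (ext c) (n + 2) (by rw [Nat.odd_add]; simp [hodd]) (hlegal c n hl) (hfol c n hfo)
      (by rw [hpos]; exact hne')
    rw [hhist, hpos] at this
    exact this
  · intro c n hl hfo htop
    have := h2 (ext c) (n + 2) (hlegal c n hl) (hfol c n hfo) (by rw [hpos]; exact htop)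
    rw [Nat.odd_add] at this
    simpa using this
  · intro c hall
    refine h3 (ext c) fun n => ?_
    have h := hall n
    refine ⟨fun k hk => hlegal c n h.1 k (by omega), fun k hk => hfol c n h.2 k (by omega)⟩

/-- B wins from a maximal ideal: A has to produce the whole ring. -/
theorem BWins.of_isMaximal {I₀ : Ideal R} (h : I₀.IsMaximal) : BWins I₀ := by
  refine BWins.intro h.ne_top fun a ha hne => ?_
  exfalso
  have h' := h.eq_of_le hne le_sup_left
  apply ha
  rw [h']
  exact Ideal.mem_sup_right (Ideal.subset_span rfl)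

/-- Comapping a sum with a principal ideal along a surjective ring homomorphism. -/
theorem comap_sup_span {S : Type*} [CommRing S] (φ : R →+* S) (hφ : Function.Surjective φ)
    (J : Ideal S) (a : R) :
    Ideal.comap φ J ⊔ Ideal.span {a} = Ideal.comap φ (J ⊔ Ideal.span {φ a}) := by
  apply le_antisymm
  · refine sup_le (Ideal.comap_mono le_sup_left) ?_
    rw [Ideal.span_singleton_le_iff_mem, Ideal.mem_comap]
    exact Ideal.mem_sup_right (Ideal.subset_span rfl)
  · intro x hx
    rw [Ideal.mem_comap, Submodule.mem_sup] at hx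
    obtain ⟨y, hy, z, hz, hyz⟩ := hx
    obtain ⟨w, rfl⟩ := Ideal.mem_span_singleton'.mp hz
    obtain ⟨w', rfl⟩ := hφ w
    have : x = (x - w' * a) + w' * a := by ring
    rw [this]
    refine Submodule.add_mem_sup ?_ (Ideal.mem_span_singleton'.mpr ⟨w', rfl⟩)
    rw [Ideal.mem_comap, map_sub, map_mul, ← hyz]
    simpa using hy

theorem position_comap {S : Type*} [CommRing S] (φ : R →+* S) (hφ : Function.Surjective φ)
    (J : Ideal S) (a : ℕ → R) (n : ℕ) :
    position (Ideal.comap φ J) a n = Ideal.comap φ (position J (φ ∘ a) n) := by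
  induction n with
  | zero => rfl
  | succ n ih => rw [position_succ, ih, comap_sup_span φ hφ, position_succ]; rfl

/-- B's winning is transported along the preimage under a surjective ring homomorphism. -/
theorem BWins.comap {S : Type*} [CommRing S] (φ : R →+* S) (hφ : Function.Surjective φ)
    {J : Ideal S} (h : BWins J) : BWins (Ideal.comap φ J) := by
  obtain ⟨σ, h1, h2, h3⟩ := h
  have hs : ∀ y, φ (Function.surjInv hφ y) = y := Function.surjInv_eq hφ
  have hhist : ∀ (a : ℕ → R) (n : ℕ), history (φ ∘ a) n = (history a n).map φ := by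
    intro a n
    simp [history, List.map_map]
  have hlegal : ∀ (a : ℕ → R) (n : ℕ), LegalFrom (Ideal.comap φ J) a n →
      LegalFrom J (φ ∘ a) n := by
    intro a n hl k hk
    have := hl k hk
    rw [position_comap φ hφ, Ideal.mem_comap] at this
    exact this
  have hfol : ∀ (a : ℕ → R) (n : ℕ),
      Follows (fun l => Function.surjInv hφ (σ (l.map φ))) a n → Follows σ (φ ∘ a) n := by
    intro a n hfo k hk hodd
    have := hfo k hk hodd
    rw [Function.comp_apply, this, hs, hhist]
  have htopiff : ∀ (a : ℕ → R) (n : ℕ), position (Ideal.comap φ J) a n = ⊤ ↔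
      position J (φ ∘ a) n = ⊤ := by
    intro a n
    rw [position_comap φ hφ, Ideal.eq_top_iff_one, Ideal.eq_top_iff_one, Ideal.mem_comap, map_one]
  refine ⟨fun l => Function.surjInv hφ (σ (l.map φ)), ?_, ?_, ?_⟩
  · intro a n hodd hl hfo hne
    rw [position_comap φ hφ, Ideal.mem_comap, hs, ← hhist]
    exact h1 _ n hodd (hlegal a n hl) (hfol a n hfo) (fun h => hne ((htopiff a n).mpr h))
  · intro a n hl hfo htop
    exact h2 _ n (hlegal a n hl) (hfol a n hfo) ((htopiff a n).mp htop)
  · intro a hall
    exact h3 (φ ∘ a) fun n => ⟨hlegal a n (hall n).1, hfol a n (hall n).2⟩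

theorem position_bot (a : ℕ → R) (n : ℕ) : position ⊥ a n = currentIdeal a n := by
  induction n with
  | zero => simp [position, currentIdeal]
  | succ n ih =>
    rw [position_succ, ih, currentIdeal, currentIdeal, ← Ideal.span_union]
    congr 1
    ext x
    simp only [Set.mem_union, Set.mem_ofPred_eq, Set.mem_singleton_iff]
    constructor
    · rintro (⟨k, hk, rfl⟩ | rfl)
      · exact ⟨k, by omega, rfl⟩
      · exact ⟨n, by omega, rfl⟩
    · rintro ⟨k, hk, rfl⟩
      rcases Nat.lt_succ_iff_lt_or_eq.mp hk with h | rfl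
      · exact Or.inl ⟨k, h, rfl⟩
      · exact Or.inr rfl

theorem BWins.exists_strategy (h : BWins (⊥ : Ideal R)) : ∃ σ : List R → R,
    IsWinningStrategyB σ := by
  obtain ⟨σ, h1, h2, h3⟩ := h
  have hl : ∀ (a : ℕ → R) (n : ℕ), LegalUpTo a n → LegalFrom ⊥ a n := by
    intro a n hl k hk
    rw [position_bot]; exact hl k hk
  refine ⟨σ, ?_, ?_, ?_⟩
  · intro a n hodd hleg hfo hne
    have := h1 a n hodd (hl a n hleg) hfo (by rw [position_bot]; exact hne)
    rwa [position_bot] at this
  · intro a n hleg hfo htop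
    exact h2 a n (hl a n hleg) hfo (by rw [position_bot]; exact htop)
  · intro a hall
    exact h3 a fun n => ⟨hl a n (hall n).1, (hall n).2⟩

end Pool.Agent.Helper81.IdealChomp
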