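import Mathlib

set_option autoImplicit false

namespace Pool.Agent.Helper81.IdealChomp

variable {T : Type*} [CommRing T]

/-- The ideal `Q` divides a nonzero principal ideal. -/
def Inv (Q : Ideal T) : Prop := ∃ (Q' : Ideal T) (c : T), c ≠ 0 ∧ Q * Q' = Ideal.span {c}

theorem Inv.cancel [IsDomain T] {Q A B : Ideal T} (hQ : Inv Q) (h : Q * A = Q * B) : A = B := by
  obtain ⟨Q', c, hc, hQ'⟩ := hQ
  have h1 : Ideal.span {c} * A = Ideal.span {c} * B := by
    rw [← hQ', mul_comm Q Q', mul_assoc, mul_assoc, h]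
  exact (Ideal.span_singleton_mul_right_inj hc).mp h1

theorem exists_eq_span_mul {J : Ideal T} {c : T} (h : J ≤ Ideal.span {c}) :
    ∃ J' : Ideal T, J = Ideal.span {c} * J' := by
  refine ⟨Submodule.comap (LinearMap.mulLeft T c) J, ?_⟩
  ext x
  rw [Ideal.mem_span_singleton_mul]
  constructor
  · intro hx
    obtain ⟨y, rfl⟩ := Ideal.mem_span_singleton'.mp (h hx)
    exact ⟨y, by rw [Submodule.mem_comap, LinearMap.mulLeft_apply, mul_comm]; exact hx,
      mul_comm _ _⟩
  · rintro ⟨z, hz, rfl⟩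
    rw [Submodule.mem_comap, LinearMap.mulLeft_apply] at hz
    exact hz

theorem Inv.exists_eq_mul [IsDomain T] {Q J : Ideal T} (hQ : Inv Q) (h : J ≤ Q) :
    ∃ J' : Ideal T, J = Q * J' := by
  obtain ⟨Q', c, hc, hQ'⟩ := hQ
  have h1 : Q' * J ≤ Ideal.span {c} := by
    rw [← hQ', mul_comm Q Q']
    exact Ideal.mul_mono_right h
  obtain ⟨J', hJ'⟩ := exists_eq_span_mul h1
  refine ⟨J', ?_⟩
  have h2 : Ideal.span {c} * J = Ideal.span {c} * (Q * J') := by
    rw [← mul_assoc, mul_comm _ Q, mul_assoc, ← hJ', ← mul_assoc, hQ']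
  exact (Ideal.span_singleton_mul_right_inj hc).mp h2

theorem Inv.pow [IsDomain T] {Q : Ideal T} (hQ : Inv Q) (k : ℕ) : Inv (Q ^ k) := by
  obtain ⟨Q', c, hc, hQ'⟩ := hQ
  refine ⟨Q' ^ k, c ^ k, pow_ne_zero k hc, ?_⟩
  rw [← mul_pow, hQ', Ideal.span_singleton_pow]

/-- In a domain in which nonzero primes are maximal and which is Noetherian, a nonzero element is
contained in finitely many maximal ideals. -/
theorem finite_maximal [IsNoetherianRing T] [Ring.DimensionLEOne T] {a : T} (ha : a ≠ 0) :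
    {N : Ideal T | N.IsMaximal ∧ a ∈ N}.Finite := by
  refine Set.Finite.subset (Ideal.finite_minimalPrimes_of_isNoetherianRing T (Ideal.span {a})) ?_
  rintro N ⟨hN, haN⟩
  refine ⟨⟨hN.isPrime, ?_⟩, ?_⟩
  · rwa [Ideal.span_singleton_le_iff_mem]
  · rintro P ⟨hP, haP⟩ hPN
    have hP0 : P ≠ ⊥ := by
      rintro rfl
      rw [Ideal.span_singleton_le_iff_mem, Ideal.mem_bot] at haP
      exact ha haP
    have hPm : P.IsMaximal := Ring.DimensionLEOne.maximalOfPrime hP0 hP
    exact (hPm.eq_of_le hN.ne_top hPN).ge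

/-- An invertible maximal ideal containing `a ≠ 0` is generated by `a` and an element congruent
to `1` modulo a given other maximal ideal. -/
theorem exists_two_gen [IsDomain T] [IsNoetherianRing T] [Ring.DimensionLEOne T] {a : T} (ha : a ≠ 0)
    {Q M : Ideal T} (hQm : Q.IsMaximal) (hQ : Inv Q) (haQ : a ∈ Q) (hM : M.IsMaximal)
    (hne : Q ≠ M) : ∃ b : T, b - 1 ∈ M ∧ Ideal.span {a, b} = Q := by
  classical
  have hfin := finite_maximal ha
  let S : Finset (Ideal T) := insert M (hfin.toFinset.erase Q)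
  have hS : ∀ N ∈ S, N.IsMaximal ∧ N ≠ Q := by
    intro N hN
    rcases Finset.mem_insert.mp hN with rfl | hN
    · exact ⟨hM, fun h => hne h.symm⟩
    · rw [Finset.mem_erase, Set.Finite.mem_toFinset] at hN
      exact ⟨hN.2.1, hN.1⟩
  have hcop : IsCoprime (Q ^ 2) (∏ N ∈ S, N) := by
    refine IsCoprime.pow_left (IsCoprime.prod_right fun N hN => ?_)
    rw [Ideal.isCoprime_iff_sup_eq]
    exact hQm.coprime_of_ne (hS N hN).1 (fun h => (hS N hN).2 h.symm)
  rw [Ideal.isCoprime_iff_exists] at hcop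
  obtain ⟨u, hu, v, hv, huv⟩ := hcop
  have hQ2 : ¬ Q ≤ Q ^ 2 := by
    intro h
    have h1 : Q * Q = Q * ⊤ := by
      rw [Ideal.mul_top, ← pow_two]
      exact le_antisymm (Ideal.pow_le_self two_ne_zero) h
    exact hQm.ne_top (hQ.cancel h1)
  obtain ⟨q, hq, hq2⟩ := Set.not_subset.mp hQ2
  have hvN : ∀ N ∈ S, v ∈ N := fun N hN => by
    have := Ideal.prod_le_inf hv
    exact (Finset.inf_le (f := fun N => N) hN) this
  let b := q * v + u
  have hb1 : b - 1 = v * (q - 1) := by
    change q * v + u - 1 = v * (q - 1)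
    linear_combination huv
  have hbN : ∀ N ∈ S, b - 1 ∈ N := fun N hN => by
    rw [hb1]; exact N.mul_mem_right _ (hvN N hN)
  have hbQ : b ∈ Q := Q.add_mem (Q.mul_mem_right _ hq) (Ideal.pow_le_self two_ne_zero hu)
  have hbQ2 : b ∉ Q ^ 2 := by
    intro h
    apply hq2
    have : q = b - u + q * u := by
      change q = q * v + u - u + q * u
      linear_combination (-q) * huv
    rw [this]
    exact (Q ^ 2).add_mem ((Q ^ 2).sub_mem h hu) ((Q ^ 2).mul_mem_left _ hu)
  refine ⟨b, hbN M (Finset.mem_insert_self _ _), ?_⟩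
  obtain ⟨J, hJ⟩ := hQ.exists_eq_mul ((Ideal.span_singleton_le_iff_mem Q).mpr hbQ)
  have htop : J ⊔ Ideal.span {a} = ⊤ := by
    by_contra hne'
    obtain ⟨N, hN, hle⟩ := Ideal.exists_le_maximal _ hne'
    have haN : a ∈ N := hle (Ideal.mem_sup_right (Ideal.subset_span rfl))
    have hJN : J ≤ N := le_trans le_sup_left hle
    have hbJ : b ∈ Q * J := by rw [← hJ]; exact Ideal.subset_span rfl
    by_cases hNQ : N = Q
    · subst hNQ
      apply hbQ2
      rw [pow_two]
      exact Ideal.mul_mono_right hJN hbJ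
    · have hNS : N ∈ S := by
        refine Finset.mem_insert_of_mem ?_
        rw [Finset.mem_erase, Set.Finite.mem_toFinset]
        exact ⟨hNQ, hN, haN⟩
      have hbN' : b ∈ N := hJN (Ideal.mul_le_right hbJ)
      apply hN.ne_top
      rw [Ideal.eq_top_iff_one]
      have := N.sub_mem hbN' (hbN N hNS)
      simpa using this
  apply le_antisymm
  · rw [Ideal.span_le]
    rintro x (rfl | rfl)
    · exact haQ
    · exact hbQ
  · calc Q = Q * (J ⊔ Ideal.span {a}) := by rw [htop, Ideal.mul_top]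
      _ = Ideal.span {b} ⊔ Q * Ideal.span {a} := by rw [Ideal.mul_sup, ← hJ]
      _ ≤ Ideal.span {a, b} := by
          refine sup_le ?_ (le_trans Ideal.mul_le_right ?_)
          · rw [Ideal.span_singleton_le_iff_mem]
            exact Ideal.subset_span (Set.mem_insert_of_mem _ rfl)
          · rw [Ideal.span_singleton_le_iff_mem]
            exact Ideal.subset_span (Set.mem_insert _ _)

/-- If the only maximal ideal containing `a ≠ 0` is the invertible ideal `M` then `(a)` is a power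
of `M`. -/
theorem exists_eq_pow [IsDomain T] [IsNoetherianRing T] {a : T} (ha : a ≠ 0) {M : Ideal T} (hM : M.IsMaximal)
    (hinv : Inv M) (h : ∀ N : Ideal T, N.IsMaximal → a ∈ N → N = M) :
    ∃ k : ℕ, Ideal.span {a} = M ^ k := by
  classical
  have hex : ∃ k : ℕ, a ∉ M ^ k := by
    by_contra hcon
    push Not at hcon
    have : a ∈ ⨅ i : ℕ, M ^ i := by
      rw [Ideal.mem_iInf]; exact hcon
    rw [Ideal.iInf_pow_eq_bot_of_isDomain _ hM.ne_top] at this
    exact ha this
  have hk := Nat.find_spec hex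
  have hkmin := fun m => Nat.find_min hex (m := m)
  rcases hk0 : Nat.find hex with _ | k
  · rw [hk0] at hk
    simp at hk
  · rw [hk0] at hk hkmin
    have hak : a ∈ M ^ k := by
      have := hkmin k (Nat.lt_succ_self k)
      simpa using this
    refine ⟨k, ?_⟩
    obtain ⟨J, hJ⟩ := (hinv.pow k).exists_eq_mul ((Ideal.span_singleton_le_iff_mem _).mpr hak)
    have hJtop : J = ⊤ := by
      by_contra hne
      obtain ⟨N, hN, hle⟩ := Ideal.exists_le_maximal _ hne
      have haJ : a ∈ J := by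
        have : a ∈ M ^ k * J := by rw [← hJ]; exact Ideal.subset_span rfl
        exact Ideal.mul_le_right this
      have hNM := h N hN (hle haJ)
      subst hNM
      apply hk
      have : a ∈ N ^ k * J := by rw [← hJ]; exact Ideal.subset_span rfl
      rw [pow_succ]
      exact Ideal.mul_mono_right hle this
    rw [hJ, hJtop, Ideal.mul_top]

/-- The answer of player B. -/
theorem exists_answer [IsDomain T] [IsNoetherianRing T] [Ring.DimensionLEOne T] {M : Ideal T}
    (hM : M.IsMaximal) (hinv : ∀ Q : Ideal T, Q.IsMaximal → Inv Q)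
    (hprinc : ∀ Q : Ideal T, Q.IsMaximal → ∀ a : T, Ideal.span {a} ≠ Q)
    (hpow : ∀ k : ℕ, ∀ a : T, a ≠ 0 → Ideal.span {a} = M ^ k → k = 0)
    (a : T) (ha : a ≠ 0) (hu : ¬ IsUnit a) :
    ∃ b : T, b - 1 ∈ M ∧ (Ideal.span {a, b}).IsMaximal ∧ b ∉ Ideal.span {a} := by
  have hex : ∃ Q : Ideal T, Q.IsMaximal ∧ a ∈ Q ∧ Q ≠ M := by
    by_contra hcon
    push Not at hcon
    obtain ⟨k, hk⟩ := exists_eq_pow ha hM (hinv M hM) hcon
    have := hpow k a ha hk
    subst this
    rw [pow_zero, Ideal.one_eq_top, Ideal.span_singleton_eq_top] at hk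
    exact hu hk
  obtain ⟨Q, hQ, haQ, hQM⟩ := hex
  obtain ⟨b, hb1, hbQ⟩ := exists_two_gen ha hQ (hinv Q hQ) haQ hM hQM
  refine ⟨b, hb1, by rw [hbQ]; exact hQ, ?_⟩
  intro hb
  apply hprinc Q hQ a
  rw [← hbQ]
  apply le_antisymm
  · rw [Ideal.span_singleton_le_iff_mem]
    exact Ideal.subset_span (Set.mem_insert _ _)
  · rw [Ideal.span_le]
    rintro x (rfl | rfl)
    · exact Ideal.subset_span rfl
    · exact hb

end Pool.Agent.Helper81.IdealChomp
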